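import Pool.Agent.Helper72.PT.St

/-! PT: module E, Kraft inequality with rewards -/

open Finset

namespace Pool.Agent.Helper59.PT

open Pool.HW Pool.PL Pool.PT

open Classical in
theorem e_one {α : Type} [DecidableEq α] (P : Finset α) (w : α → ℝ) (hw : ∀ p, 0 ≤ w p)
    (hs : ∑ p ∈ P, w p ≤ 1) {ι : Type} (n : ℕ) :
    ∀ (I : Finset ι) (a : ι → List α) (f : ι → ℝ) (B : ℝ),
    (∀ i ∈ I, 0 ≤ f i) → (∀ i ∈ I, ∀ p ∈ a i, p ∈ P) → (∀ i ∈ I, (a i).length ≤ n) →
    (∀ M : List α, (∀ p ∈ M, p ∈ P) → ∑ i ∈ I.filter (fun i => a i <+: M), f i ≤ B) →
    ∑ i ∈ I, f i * ((a i).map w).prod ≤ B := by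
  induction n with
  | zero =>
    intro I a f B hf ha hn hM
    have h1 := hM [] (by simp)
    rw [Finset.filter_true_of_mem] at h1
    · refine le_trans (le_of_eq (Finset.sum_congr rfl fun i hi => ?_)) h1
      have : a i = [] := List.length_eq_zero_iff.1 (Nat.le_zero.1 (hn i hi))
      rw [this]; simp
    · intro i hi
      have : a i = [] := List.length_eq_zero_iff.1 (Nat.le_zero.1 (hn i hi))
      rw [this]
  | succ n ih =>
    intro I a f B hf ha hn hM
    set c := ∑ i ∈ I.filter (fun i => a i = []), f i with hc
    have hcB : c ≤ B := by
      have h1 := hM [] (by simp)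
      simpa only [List.prefix_nil] using h1
    have hP : ∀ p ∈ P, ∑ i ∈ I.filter (fun i => (a i).head? = some p),
        f i * (((a i).tail).map w).prod ≤ B - c := by
      intro p hp
      refine ih _ (fun i => (a i).tail) f (B - c) ?_ ?_ ?_ ?_
      · intro i hi; exact hf i (mem_filter.1 hi).1
      · intro i hi q hq
        exact ha i (mem_filter.1 hi).1 q (List.mem_of_mem_tail hq)
      · intro i hi
        have := hn i (mem_filter.1 hi).1
        rw [List.length_tail]
        omega
      · intro M hMP
        have h1 := hM (p :: M) (by
          intro q hq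
          rcases List.mem_cons.1 hq with rfl | hq
          · exact hp
          · exact hMP q hq)
        rw [Finset.filter_filter]
        have h2 : Disjoint (I.filter (fun i => a i = []))
            (I.filter (fun i => (a i).head? = some p ∧ (a i).tail <+: M)) := by
          rw [Finset.disjoint_left]
          intro i hi hi'
          rw [mem_filter] at hi hi'
          rw [hi.2] at hi'
          simp at hi'
        have h3 : (I.filter (fun i => a i = [])) ∪
            (I.filter (fun i => (a i).head? = some p ∧ (a i).tail <+: M)) ⊆
            I.filter (fun i => a i <+: p :: M) := by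
          intro i hi
          rw [mem_union, mem_filter, mem_filter] at hi
          rw [mem_filter]
          rcases hi with ⟨h4, h5⟩ | ⟨h4, h5, h6⟩
          · exact ⟨h4, by rw [h5]; exact List.nil_prefix⟩
          · refine ⟨h4, ?_⟩
            cases h7 : a i with
            | nil => rw [h7] at h5; simp at h5
            | cons q t =>
              rw [h7] at h5 h6
              simp only [List.head?_cons, Option.some.injEq, List.tail_cons] at h5 h6
              rw [h5]
              exact (List.prefix_cons_inj p).2 h6
        have h4 := Finset.sum_le_sum_of_subset_of_nonneg (f := f) h3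
          (fun i hi _ => hf i (mem_filter.1 hi).1)
        rw [Finset.sum_union h2] at h4
        linarith
    have hsplit : ∀ i ∈ I, f i * ((a i).map w).prod = (if a i = [] then f i else 0) +
        ∑ p ∈ P, if (a i).head? = some p then w p * (f i * (((a i).tail).map w).prod) else 0 := by
      intro i hi
      cases h7 : a i with
      | nil => simp
      | cons q t =>
        have hq : q ∈ P := ha i hi q (by rw [h7]; simp)
        simp only [reduceCtorEq, if_false, List.head?_cons, Option.some.injEq, List.tail_cons,
          zero_add, List.map_cons, List.prod_cons]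
        rw [Finset.sum_ite_eq, if_pos hq]
        ring
    rw [Finset.sum_congr rfl hsplit, Finset.sum_add_distrib, ← Finset.sum_filter,
      Finset.sum_comm]
    have h8 : ∀ p ∈ P, ∑ i ∈ I, (if (a i).head? = some p then
        w p * (f i * (((a i).tail).map w).prod) else 0) ≤ w p * (B - c) := by
      intro p hp
      rw [← Finset.sum_filter, ← Finset.mul_sum]
      exact mul_le_mul_of_nonneg_left (hP p hp) (hw p)
    have h9 := Finset.sum_le_sum h8
    rw [← Finset.sum_mul] at h9
    have h10 : (∑ p ∈ P, w p) * (B - c) ≤ 1 * (B - c) :=
      mul_le_mul_of_nonneg_right hs (by linarith)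
    rw [← hc]
    linarith

theorem e : StE := by
  intro α _ P w hw hs ι I a b f B hf hP hM
  classical
  have hwL : ∀ L : List α, 0 ≤ (L.map w).prod := by
    intro L
    refine List.prod_nonneg ?_
    intro r hr
    obtain ⟨p, _, rfl⟩ := List.mem_map.1 hr
    exact hw p
  have h1 : ∀ i ∈ I, f i * (((a i).map w).prod * ((b i).map w).prod) =
      (f i * ((b i).map w).prod) * ((a i).map w).prod := by
    intro i _; ring
  rw [Finset.sum_congr rfl h1]
  refine e_one P w hw hs (I.sup fun i => (a i).length) I a _ B ?_ ?_ ?_ ?_
  · intro i hi; exact mul_nonneg (hf i hi) (hwL _)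
  · intro i hi; exact (hP i hi).1
  · intro i hi; exact Finset.le_sup (f := fun i => (a i).length) hi
  · intro M hMP
    refine e_one P w hw hs (I.sup fun i => (b i).length) _ b f B ?_ ?_ ?_ ?_
    · intro i hi; exact hf i (mem_filter.1 hi).1
    · intro i hi; exact (hP i (mem_filter.1 hi).1).2
    · intro i hi
      exact Finset.le_sup (f := fun i => (b i).length) (mem_filter.1 hi).1
    · intro M' hMP'
      rw [Finset.filter_filter]
      have h2 := hM M M' hMP hMP'
      convert h2

end Pool.Agent.Helper59.PT
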