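import Pool.Agent.Helper72.PT.St
import Pool.Agent.Helper59.PL.Qb

/-! PT: module Fac, bridges are lists of irreducible bridges -/

open Finset

namespace Pool.Agent.Helper59.PT

open Pool.HW Pool.PL Pool.PT Pool.Agent.Helper59.PL

theorem fac : StFac := by
  intro z M h0 h1
  constructor
  · intro h b hb
    rw [mem_wle] at hb
    have hb1 : Br b := hb.2.1
    refine ⟨PL.fac b, ?_, fac_flatten hb1, ?_⟩
    · refine mem_LH_of (fac_irr hb1) ?_ ?_
      · intro p hp
        have h3 := length_le_flatten hp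
        rw [fac_flatten hb1] at h3
        exact h3.trans hb.1
      · rw [fac_flatten hb1]
        exact hb.2.2
    · rw [wt_eq, fac_flatten hb1]
  · intro h B hB
    rw [Sys.mem_LH] at hB
    have hI : ∀ p ∈ B, Irr p := fun p hp => (mem_wle.1 (hB.1 p hp)).2
    refine ⟨⟨Br_flatten fun p hp => (hI p hp).1, ?_⟩, wt_eq B, xx_eq B⟩
    rw [← ht_eq (z := z) (M := M) (h0 := h0) (h1 := h1) hI, hB.2]

end Pool.Agent.Helper59.PT
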