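import Pool.Agent.Helper72.PT.St
import Pool.Agent.Helper59.PL.Qb

/-! PT: module GPM, from words to lists -/

open Finset

namespace Pool.Agent.Helper59.PT

open Pool.HW Pool.PL Pool.PT Pool.Agent.Helper59.PL

theorem gpm_key {B B' L L' K K' : List (List Dir)} (hB : ∀ p ∈ B, Irr p)
    (hB' : ∀ p ∈ B', Irr p) (hL : L <:+ B) (hL' : L' <+: B') (hK : K <+: L.reverse)
    (hK' : K' <+: [Dir.N] :: L') (hne : K' ≠ []) :
    ∃ c e e' c', B.flatten = c ++ e ∧ Br c ∧ Br e ∧ Dir.N :: B'.flatten = e' ++ c' ∧ Br e' ∧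
      Br c' ∧ e = K.reverse.flatten ∧ e' = K'.flatten ∧ (∀ p ∈ K, Irr p) ∧
      (∀ p ∈ K', Irr p) := by
  have h1 : K.reverse <:+ B := by
    have : K.reverse <:+ L.reverse.reverse := List.reverse_suffix.2 hK
    rw [List.reverse_reverse] at this
    exact this.trans hL
  obtain ⟨C0, hC0⟩ := h1
  cases K' with
  | nil => exact absurd rfl hne
  | cons p K'' =>
    rw [List.cons_prefix_cons] at hK'
    obtain ⟨rfl, hK''⟩ := hK'
    obtain ⟨C', hC'⟩ := hK''.trans hL'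
    have h2 : ∀ p ∈ C0, Irr p := fun p hp => hB p (by rw [← hC0]; simp [hp])
    have h3 : ∀ p ∈ K, Irr p := fun p hp => hB p (by rw [← hC0]; simp [hp])
    have h4 : ∀ p ∈ K'', Irr p := fun p hp => hB' p (by rw [← hC']; simp [hp])
    have h5 : ∀ p ∈ C', Irr p := fun p hp => hB' p (by rw [← hC']; simp [hp])
    have h6 : ∀ p ∈ [Dir.N] :: K'', Irr p := by
      intro p hp
      rcases List.mem_cons.1 hp with rfl | hp
      · exact irr_N
      · exact h4 p hp
    refine ⟨C0.flatten, K.reverse.flatten, ([Dir.N] :: K'').flatten, C'.flatten, ?_, ?_, ?_,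
      ?_, ?_, ?_, rfl, rfl, h3, h6⟩
    · rw [← List.flatten_append, hC0]
    · exact Br_flatten fun p hp => (h2 p hp).1
    · exact Br_flatten fun p hp => (h3 p (by simpa using hp)).1
    · rw [← List.flatten_append, List.cons_append, hC', List.flatten_cons]
      rfl
    · exact Br_flatten fun p hp => (h6 p hp).1
    · exact Br_flatten fun p hp => (h5 p hp).1

theorem gpm (hO : StOrder) (hF : StFac) : StGPM := by
  intro z M h0 h1 h h' B B' hB hB' hh hsa L L' hL hL'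
  have hb := (hF z M h0 h1).2 h B hB
  have hb' := (hF z M h0 h1).2 h' B' hB'
  set S := sysB z M h0 h1 with hS
  rw [Sys.mem_LH] at hB hB'
  have hI : ∀ p ∈ B, Irr p := fun p hp => (mem_wle.1 (hB.1 p hp)).2
  have hI' : ∀ p ∈ B', Irr p := fun p hp => (mem_wle.1 (hB'.1 p hp)).2
  have hle : S.ht L' ≤ h' := by
    obtain ⟨T, hT⟩ := hL'
    rw [← hT, Sys.ht_append] at hB'
    omega
  have key : ∀ K K', K <+: L.reverse → K' <+: [Dir.N] :: L' → S.ht K = S.ht K' → 1 ≤ S.ht K →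
      S.ht K ≤ S.ht L' → ∃ c e e' c', B.flatten = c ++ e ∧ Br c ∧ Br e ∧
        Dir.N :: B'.flatten = e' ++ c' ∧
        Br e' ∧ Br c' ∧ Y e = Y e' ∧ 1 ≤ Y e ∧ Y e ≤ h' ∧ X e = S.xx K ∧ X e' = S.xx K' := by
    intro K K' hK hK' hKK h1K hKm
    have hne : K' ≠ [] := by
      rintro rfl
      rw [Sys.ht_nil] at hKK
      omega
    obtain ⟨c, e, e', c', a1, a2, a3, a4, a5, a6, a7, a8, a9, a10⟩ :=
      gpm_key hI hI' hL hL' hK hK' hne
    have b1 : (S.ht K : ℤ) = Y e := by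
      rw [a7, ← ht_eq (z := z) (M := M) (h0 := h0) (h1 := h1)
        (fun p hp => a9 p (by simpa using hp)), Sys.ht_reverse]
    have b2 : (S.ht K' : ℤ) = Y e' := by
      rw [a8, ← ht_eq (z := z) (M := M) (h0 := h0) (h1 := h1) a10]
    refine ⟨c, e, e', c', a1, a2, a3, a4, a5, a6, by omega, by omega, by omega, ?_, ?_⟩
    · rw [a7, ← xx_eq (z := z) (M := M) (h0 := h0) (h1 := h1), Sys.xx_reverse]
    · rw [a8, ← xx_eq (z := z) (M := M) (h0 := h0) (h1 := h1)]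
  rcases hO h h' B.flatten B'.flatten hb.1 hb'.1 hh hsa with hc | hc
  · left
    intro K K' hK hK' hKK h1K hKm
    obtain ⟨c, e, e', c', a1, a2, a3, a4, a5, a6, a7, a8, a9, a10, a11⟩ :=
      key K K' hK hK' hKK h1K hKm
    rw [← a10, ← a11]
    exact hc c e e' c' a1 a2 a3 a4 a5 a6 a7 a8 a9
  · right
    intro K K' hK hK' hKK h1K hKm
    obtain ⟨K0, hK0, rfl⟩ := List.prefix_map_iff.1 hK
    obtain ⟨K1, hK1, rfl⟩ := List.prefix_map_iff.1 hK'
    rw [Sys.ht_map_σ] at hKK h1K hKm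
    rw [Sys.ht_map_σ] at hKK
    obtain ⟨c, e, e', c', a1, a2, a3, a4, a5, a6, a7, a8, a9, a10, a11⟩ :=
      key K0 K1 hK0 hK1 hKK h1K hKm
    have := hc c e e' c' a1 a2 a3 a4 a5 a6 a7 a8 a9
    rw [Sys.xx_map_σ, Sys.xx_map_σ, ← a10, ← a11]
    omega

end Pool.Agent.Helper59.PT
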