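import Pool.Agent.Helper72.PT.St
import Pool.Agent.Helper59.PL.Ren

/-! PT: module Pg, heights of the letters -/

open Finset

namespace Pool.Agent.Helper59.PT

open Pool.HW Pool.PL Pool.PT Pool.Agent.Helper59.PL

theorem renewal_le {α : Type} [DecidableEq α] (S : Sys α) (m : ℕ) :
    ∑ p ∈ S.P, S.w p * ∑ i ∈ Ico (m + 1 - S.τ p) (m + 1), S.u i ≤ 1 := by
  have h1 := renewal_id S.P S.w S.τ S.τ_pos S.u (uu_zero S S.w) (uu_succ S S.w) m
  have h2 : 0 ≤ (1 - ∑ p ∈ S.P, S.w p) * ∑ i ∈ range (m + 1), S.u i :=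
    mul_nonneg (by linarith [S.w_sum]) (Finset.sum_nonneg fun i _ => S.u_nonneg i)
  linarith

theorem count_le (u : ℕ → ℝ) (hu : ∀ i, 0 ≤ u i) (ℓ g : ℕ) (hg : g ≤ ℓ) :
    (g : ℝ) * ∑ i ∈ range (ℓ + 1), u i ≤
      ∑ m ∈ range (2 * ℓ + 1), ∑ i ∈ Ico (m + 1 - g) (m + 1), u i := by
  have h1 : (g : ℝ) * ∑ i ∈ range (ℓ + 1), u i = ∑ x ∈ range (ℓ + 1) ×ˢ range g, u x.1 := by
    rw [Finset.sum_product, Finset.mul_sum]
    refine Finset.sum_congr rfl fun i _ => ?_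
    show (g : ℝ) * u i = ∑ _y ∈ range g, u i
    rw [Finset.sum_const, card_range, nsmul_eq_mul]
  rw [h1, Finset.sum_sigma']
  have h2 : ∀ x ∈ range (ℓ + 1) ×ˢ range g, ∀ x' ∈ range (ℓ + 1) ×ˢ range g,
      ((fun x : ℕ × ℕ => (⟨x.1 + x.2, x.1⟩ : (_ : ℕ) × ℕ)) x =
        (fun x : ℕ × ℕ => (⟨x.1 + x.2, x.1⟩ : (_ : ℕ) × ℕ)) x') → x = x' := by
    rintro ⟨i, j⟩ _ ⟨i', j'⟩ _ he
    simp only [Sigma.mk.injEq, heq_eq_eq] at he
    ext
    · exact he.2
    · show j = j'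
      omega
  have h3 := Finset.sum_image (f := fun r : (_ : ℕ) × ℕ => u r.2)
    (g := fun x : ℕ × ℕ => (⟨x.1 + x.2, x.1⟩ : (_ : ℕ) × ℕ)) (s := range (ℓ + 1) ×ˢ range g)
    (fun x hx x' hx' he => h2 x hx x' hx' he)
  rw [← h3]
  refine Finset.sum_le_sum_of_subset_of_nonneg ?_ fun r _ _ => hu _
  intro r hr
  obtain ⟨⟨i, j⟩, hx, rfl⟩ := Finset.mem_image.1 hr
  rw [mem_product, mem_range, mem_range] at hx
  simp only [mem_sigma, mem_range, mem_Ico]
  simp only at hx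
  omega

theorem pg (_ : StE) : StPg := by
  intro α _ S ℓ
  have hU : S.U ℓ = ∑ i ∈ range (ℓ + 1), S.u i := rfl
  constructor
  · have h1 := renewal_le S ℓ
    refine le_trans ?_ h1
    rw [mul_comm, Sys.Gt, Finset.sum_mul]
    refine le_trans (le_of_eq ?_) (Finset.sum_le_sum_of_subset_of_nonneg
      (Finset.filter_subset (fun p => ℓ < S.τ p) S.P)
      (fun p _ _ => mul_nonneg (S.w_nonneg p) (Finset.sum_nonneg fun i _ => S.u_nonneg i)))
    refine Finset.sum_congr rfl fun p hp => ?_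
    have := (mem_filter.1 hp).2
    rw [show ℓ + 1 - S.τ p = 0 by omega, hU, Finset.range_eq_Ico]
  · have h1 : ∑ m ∈ range (2 * ℓ + 1), ∑ p ∈ S.P,
        S.w p * ∑ i ∈ Ico (m + 1 - S.τ p) (m + 1), S.u i ≤ 2 * ℓ + 1 := by
      refine le_trans (Finset.sum_le_sum fun m _ => renewal_le S m) ?_
      rw [Finset.sum_const, card_range]
      simp
    refine le_trans ?_ h1
    rw [Finset.sum_comm]
    have h2 : S.U ℓ * ∑ g ∈ range (ℓ + 1), (g : ℝ) * S.pp g =
        ∑ p ∈ S.P.filter (fun p => S.τ p ≤ ℓ), S.w p * ((S.τ p : ℝ) * S.U ℓ) := by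
      have h3 : ∀ g ∈ range (ℓ + 1), (g : ℝ) * S.pp g =
          ∑ p ∈ S.P, if S.τ p = g then S.w p * S.τ p else 0 := by
        intro g _
        rw [Sys.pp, Finset.mul_sum, Finset.sum_filter]
        refine Finset.sum_congr rfl fun p _ => ?_
        split_ifs with h
        · rw [h]; ring
        · rfl
      rw [Finset.sum_congr rfl h3, Finset.sum_comm, Finset.mul_sum, Finset.sum_filter]
      refine Finset.sum_congr rfl fun p _ => ?_
      rw [Finset.sum_ite_eq]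
      by_cases h : S.τ p ≤ ℓ
      · rw [if_pos (mem_range.2 (by omega)), if_pos h]; ring
      · rw [if_neg (fun hc => h (by rw [mem_range] at hc; omega)), if_neg h, mul_zero]
    rw [h2]
    refine le_trans ?_ (Finset.sum_le_sum_of_subset_of_nonneg
      (Finset.filter_subset (fun p => S.τ p ≤ ℓ) S.P)
      (fun p _ _ => Finset.sum_nonneg fun m _ =>
        mul_nonneg (S.w_nonneg p) (Finset.sum_nonneg fun i _ => S.u_nonneg i)))
    refine Finset.sum_le_sum fun p hp => ?_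
    rw [← Finset.mul_sum]
    exact mul_le_mul_of_nonneg_left (count_le S.u S.u_nonneg ℓ (S.τ p) (mem_filter.1 hp).2)
      (S.w_nonneg p)

end Pool.Agent.Helper59.PT
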