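import Pool.Agent.Helper72.PT.St

/-! PT: module Tp -/

open Finset

namespace Pool.Agent.Helper59.PT

open Pool.HW Pool.PL Pool.PT

theorem tp : StTp := by
  intro α _ S e he hτ hx y x
  classical
  set G := (S.LH y ×ˢ S.LH (x + 1)).filter (fun q => S.Good x q.1 q.2) with hG
  have hgood : S.good y (x + 1) x = ∑ q ∈ G, S.wt q.1 * S.wt q.2 := by
    rw [Sys.good, hG]
  set F := (S.LH y ×ˢ S.LH x).filter (fun q => S.GoodPM x q.1 (e :: q.2)) with hF
  have htp : S.w e * S.tp e y x = ∑ q ∈ F, S.wt q.1 * S.wt (e :: q.2) := by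
    rw [Sys.tp, Finset.mul_sum]
    refine Finset.sum_congr rfl fun q _ => ?_
    rw [Sys.wt_cons]; ring
  have hmem : ∀ q ∈ F, q.1 ∈ S.LH y ∧ e :: q.2 ∈ S.LH (x + 1) := by
    intro q hq
    rw [hF, mem_filter, mem_product] at hq
    refine ⟨hq.1.1, ?_⟩
    have h2 := S.mem_LH.1 hq.1.2
    rw [Sys.mem_LH]
    refine ⟨?_, by rw [Sys.ht_cons, h2.2, hτ]; ring⟩
    intro p hp
    rcases List.mem_cons.1 hp with rfl | hp
    · exact he
    · exact h2.1 p hp
  have hσ : ∀ k : ℕ, ∀ L ∈ S.LH k, L.map S.σ ∈ S.LH k := by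
    intro k L hL
    rw [Sys.mem_LH] at hL ⊢
    refine ⟨?_, by rw [Sys.ht_map_σ]; exact hL.2⟩
    intro p hp
    obtain ⟨p', hp', rfl⟩ := List.mem_map.1 hp
    exact S.σ_mem p' (hL.1 p' hp')
  have hgen : ∀ (A : Finset (List α × List α))
      (f : List α × List α → List α × List α),
      (∀ q ∈ A, f q ∈ G) → (∀ q ∈ A, ∀ q' ∈ A, f q = f q' → q = q') →
      (∀ q ∈ A, S.wt (f q).1 * S.wt (f q).2 = S.wt q.1 * S.wt (e :: q.2)) →
      ∑ q ∈ A, S.wt q.1 * S.wt (e :: q.2) ≤ S.good y (x + 1) x := by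
    intro A f hfG hfi hfw
    rw [hgood, ← Finset.sum_congr rfl hfw,
      ← Finset.sum_image (f := fun r : List α × List α => S.wt r.1 * S.wt r.2)
        (g := f) (s := A) (fun q hq q' hq' he => hfi q hq q' hq' he)]
    refine Finset.sum_le_sum_of_subset_of_nonneg ?_ fun r _ _ =>
      mul_nonneg (S.wt_nonneg _) (S.wt_nonneg _)
    intro r hr
    obtain ⟨q, hq, rfl⟩ := Finset.mem_image.1 hr
    exact hfG q hq
  have hs1 : ∑ q ∈ F.filter (fun q => S.Good x q.1 (e :: q.2)),
      S.wt q.1 * S.wt (e :: q.2) ≤ S.good y (x + 1) x := by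
    refine hgen _ (fun q => (q.1, e :: q.2)) ?_ ?_ ?_
    · intro q hq
      rw [mem_filter] at hq
      rw [hG, mem_filter, mem_product]
      exact ⟨hmem q hq.1, hq.2⟩
    · intro q _ q' _ h
      simp only [Prod.mk.injEq, List.cons.injEq, true_and] at h
      exact Prod.ext h.1 h.2
    · intro q _; rfl
  have hs2 : ∑ q ∈ F.filter (fun q => ¬ S.Good x q.1 (e :: q.2)),
      S.wt q.1 * S.wt (e :: q.2) ≤ S.good y (x + 1) x := by
    refine hgen _ (fun q => (q.1.map S.σ, (e :: q.2).map S.σ)) ?_ ?_ ?_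
    · intro q hq
      rw [mem_filter] at hq
      rw [hG, mem_filter, mem_product]
      have h2 : S.GoodPM x q.1 (e :: q.2) := by
        have h3 := hq.1
        rw [hF, mem_filter] at h3
        exact h3.2
      exact ⟨⟨hσ _ _ (hmem q hq.1).1, hσ _ _ (hmem q hq.1).2⟩, h2.resolve_left hq.2⟩
    · intro q _ q' _ h
      have hsi : Function.Injective S.σ := fun a b hab => by
        rw [← S.σ_σ a, ← S.σ_σ b, hab]
      have h2 := congrArg Prod.fst h
      have h3 := congrArg Prod.snd h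
      have h4 := List.map_injective_iff.2 hsi h3
      simp only [List.cons.injEq, true_and] at h4
      exact Prod.ext (List.map_injective_iff.2 hsi h2) h4
    · intro q _
      show S.wt (q.1.map S.σ) * S.wt ((e :: q.2).map S.σ) = _
      rw [Sys.wt_map_σ, Sys.wt_map_σ]
  rw [htp, ← Finset.sum_filter_add_sum_filter_not F (fun q => S.Good x q.1 (e :: q.2))]
  linarith

end Pool.Agent.Helper59.PT
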